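import Pool.Agent.Helper3.TN.GoalsZ
import Pool.Agent.Helper44.ZH.NRH

/-!
# MP_a41896_nt, project TN, zero estimate: NRN, the norm polynomial
-/

set_option autoImplicit false

open MvPolynomial

namespace Pool.Agent.Helper18.TN.NRN

open WeierstrassCurve Height
open Pool.Agent.Helper29.BL Pool.Agent.Helper92.Ru Pool.Agent.Helper42.SG
open Pool.Agent.Helper68.VN
open Pool.Agent.Helper92.ZH
open Pool.Agent.Helper42.TN

/-- the numbering of the variables -/
def em (σ : Type) (n : ℕ) : Option (Fin n) × σ → (Fin n × σ) ⊕ σ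
  | (some j, i) => Sum.inl (j, i)
  | (none, i) => Sum.inr i

theorem em_bij (σ : Type) (n : ℕ) : Function.Bijective (em σ n) := by
  constructor
  · rintro ⟨_ | j, i⟩ ⟨_ | j', i'⟩ h
    · simpa [em] using h
    · simp [em] at h
    · simp [em] at h
    · simpa [em] using h
  · rintro (⟨j, i⟩ | i)
    · exact ⟨(some j, i), rfl⟩
    · exact ⟨(none, i), rfl⟩

theorem t (h1 : Pool.Agent.Helper92.ZH.NQX2) (h2 : Pool.Agent.Helper3.TN.ELIMN) :
    Pool.Agent.Helper3.TN.NRN := by
  classical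
  intro K _ _ σ _ _ W n M D0 C0 CA hn hM hC0 hCA
  obtain ⟨C1, hC1, hq⟩ := h1 K σ W n M 1 hn hM le_rfl
  obtain ⟨s, hs⟩ : ∃ s : ℕ, s = nsg σ n := ⟨_, rfl⟩
  obtain ⟨w', C2, hC2, hE⟩ := h2 K σ ((Fin n × σ) ⊕ σ) (Option (Fin n)) D0
    (s * (2 * n * M + 2 * M + 1)) C0 hC0
  refine ⟨w' + 1, C2 * (C1 * (n + CA) + 1), by omega, by positivity, ?_⟩
  intro e c a g g0 S hS hint hhouse hg hg0 hind
  have hS1 : 1 ≤ S := by
    have h := hS ⟨0, hn⟩
    have h' : (1 : ℝ) ≤ 4 ^ e ⟨0, hn⟩ := one_le_pow₀ (by norm_num)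
    linarith
  have hS0 : 0 ≤ S := by linarith
  obtain ⟨Q, hQdeg, hQht, hQev⟩ := hq e c (CA * S) (by positivity) hint hhouse
  have hQinl : ∀ j i, Q.degreeOf (Sum.inl (j, i)) ≤ s * ((2 * M + 1) * 4 ^ e j) := by
    intro j i
    rw [hs]
    exact hQdeg (Sum.inl (j, i))
  have hQinr : ∀ i, Q.degreeOf (Sum.inr i) ≤ s * (2 * n * M + 1) := by
    intro i
    rw [hs]
    exact hQdeg (Sum.inr i)
  let G : Option (Fin n) → MvPolynomial σ K := fun k => k.elim g0 g
  let q : Option (Fin n) → ℕ := fun k => k.elim 1 (fun j => 4 ^ e j)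
  obtain ⟨R, hRa, hRdeg, hRht, ⟨b, hb⟩, hRne⟩ := hE a (em σ n) G Q q S (em_bij σ n)
    (by
      rintro (_ | j)
      · exact le_rfl
      · exact Nat.one_le_pow _ _ (by norm_num))
    (by
      rintro (_ | j)
      · show ((1 : ℕ) : ℝ) ≤ S
        rw [Nat.cast_one]
        exact hS1
      · show ((4 ^ e j : ℕ) : ℝ) ≤ S
        push_cast
        exact hS j)
    hS0
    (by
      rintro (_ | j) i
      · exact hg0.deg i
      · exact (hg j).deg i)
    (by
      rintro (_ | j)
      · exact hg0.pos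
      · exact (hg j).pos)
    (by
      rintro (_ | j)
      · show Real.log (PH g0) ≤ C0 * (S / ((1 : ℕ) : ℝ))
        rw [Nat.cast_one, div_one]
        exact hg0.ht
      · show Real.log (PH (g j)) ≤ C0 * (S / ((4 ^ e j : ℕ) : ℝ))
        push_cast
        exact (hg j).ht)
    (by
      rintro (_ | j) i
      · refine (hQinr i).trans ?_
        show s * (2 * n * M + 1) ≤ s * (2 * n * M + 2 * M + 1) * 1
        rw [mul_one]
        exact Nat.mul_le_mul_left _ (by omega)
      · refine (hQinl j i).trans ?_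
        show s * ((2 * M + 1) * 4 ^ e j) ≤ s * (2 * n * M + 2 * M + 1) * 4 ^ e j
        rw [mul_assoc]
        exact Nat.mul_le_mul_left _ (Nat.mul_le_mul_right _ (by omega)))
  refine ⟨R, ?_, fun j => hRa (some j), hRa none, ?_, ?_, ?_, ?_⟩
  · -- `R ≠ 0`
    obtain ⟨Ω, _, _, _, x, hx⟩ :=
      Pool.Agent.Helper44.ZH.NRH.exists_generic K ((Fin n × σ) ⊕ σ)
    have hxR : aeval x R ≠ 0 := by
      refine hRne Ω x ?_ ?_
      · refine hx.comp (fun h : Option (Fin n) × {i : σ // i ≠ a} => em σ n (h.1, h.2)) ?_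
        rintro ⟨k, i⟩ ⟨k', i'⟩ h
        have h3 := (em_bij σ n).1 h
        rw [Prod.mk.injEq] at h3
        exact Prod.ext h3.1 (Subtype.ext h3.2)
      · intro y hy hyG
        have hsq : ∀ v : (Fin n × σ) ⊕ σ, ∃ z : Ω, z ^ 2 =
            Bf (mapS Ω W (Sum.elim (fun h : Fin n × σ => h.2) id v)) (y v) :=
          fun v => IsAlgClosed.exists_pow_nat_eq _ (n := 2) (by norm_num)
        choose Φ hΦ using hsq
        have hyv : y = Sum.elim (fun h : Fin n × σ => (fun j i => y (Sum.inl (j, i))) h.1 h.2)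
            (fun i => y (Sum.inr i)) := by
          funext v
          rcases v with ⟨j, i⟩ | i <;> rfl
        have hev := hQev Ω (fun j i => y (Sum.inl (j, i))) (fun j i => Φ (Sum.inl (j, i)))
          (fun i => y (Sum.inr i)) (fun i => Φ (Sum.inr i))
          ⟨fun j i => hΦ (Sum.inl (j, i)), fun i => hΦ (Sum.inr i)⟩
        rw [← hyv] at hev
        rw [hev]
        refine Finset.prod_ne_zero_iff.2 fun ε _ => ?_
        refine hind Ω (fun j i => y (Sum.inl (j, i)))
          (fun j i => (((ε (j, i) : ℤˣ) : ℤ) : Ω) * Φ (Sum.inl (j, i)))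
          (fun i => y (Sum.inr i)) (fun i => Φ (Sum.inr i)) ⟨fun j i => ?_, fun i => hΦ (Sum.inr i)⟩
          (fun j => hyG (some j)) (hyG none) ?_
        · rw [Pool.Agent.Helper44.ZH.NRH.sign_sq]
          exact hΦ (Sum.inl (j, i))
        · have h3 : (Sum.elim (fun h : Fin n × {i : σ // i ≠ a} => y (Sum.inl (h.1, h.2)))
              (fun i : {i : σ // i ≠ a} => y (Sum.inr i))) =
              x ∘ (Sum.elim (fun h : Fin n × {i : σ // i ≠ a} =>
                (Sum.inl (h.1, h.2.1) : (Fin n × σ) ⊕ σ)) (fun i => Sum.inr i.1)) := by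
            funext v
            rcases v with ⟨j, i⟩ | i
            · exact hy (some j) i.1 i.2
            · exact hy none i.1 i.2
          rw [h3]
          refine hx.comp _ ?_
          rintro (⟨j, i⟩ | i) (⟨j', i'⟩ | i') h
          · simp only [Sum.elim_inl, Sum.inl.injEq, Prod.mk.injEq] at h
            obtain ⟨rfl, h4⟩ := h
            rw [Subtype.ext h4]
          · simp at h
          · simp at h
          · simp only [Sum.elim_inr, Sum.inr.injEq] at h
            rw [Subtype.ext h]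
    rintro rfl
    exact hxR (map_zero _)
  · rintro ⟨j, i⟩
    exact (hRdeg (some j) i).trans (Nat.mul_le_mul_right _ (Nat.le_succ _))
  · intro i
    have h3 := hRdeg none i
    have h4 : w' * q none = w' := mul_one _
    rw [h4] at h3
    exact h3.trans (Nat.le_succ _)
  · have hsq : ((sqB e : ℕ) : ℝ) ≤ n * S := by
      unfold sqB
      push_cast
      calc ∑ j, (4 : ℝ) ^ e j ≤ ∑ _j : Fin n, S := Finset.sum_le_sum fun j _ => hS j
        _ = n * S := by simp
    calc Real.log (PH R) ≤ C2 * (Real.log (PH Q) + S) := hRht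
      _ ≤ C2 * (C1 * ((sqB e : ℕ) + CA * S) + S) := by gcongr
      _ ≤ C2 * (C1 * (n * S + CA * S) + S) := by gcongr
      _ = C2 * (C1 * (n + CA) + 1) * S := by ring
  · intro A _ _ X Ψ X0 Ψ0 hon hgX hgX0
    refine ⟨(∏ ε ∈ (Finset.univ : Finset (Fin n × σ → ℤˣ)).erase 1,
      P0B W n M 1 e c X (fun j i => (((ε (j, i) : ℤˣ) : ℤ) : A) * Ψ j i) X0 Ψ0) *
        aeval (Sum.elim (fun h : Fin n × σ => X h.1 h.2) X0) b, ?_⟩
    rw [hb A (Sum.elim (fun h : Fin n × σ => X h.1 h.2) X0) (by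
      rintro (_ | j)
      · exact hgX0
      · exact hgX j), hQev A X Ψ X0 Ψ0 hon,
      ← Finset.mul_prod_erase Finset.univ _ (Finset.mem_univ 1)]
    have h3 : (fun j i => ((((1 : Fin n × σ → ℤˣ) (j, i) : ℤˣ) : ℤ) : A) * Ψ j i) = Ψ := by
      funext j i
      simp
    rw [h3]
    ring

end Pool.Agent.Helper18.TN.NRN
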